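import Mathlib
import Pool.Agent.Work.MP_620d87_co.Defs
import Pool.Agent.Work.MP_620d87_co.Proof

set_option autoImplicit false

namespace Pool.Agent.Results.MP_620d87_co.NineVertexExample

open Pool.Agent.Work.MP_620d87_co

/-- There is an oriented graph, on nine vertices, with non-trivial multiple state transfer that
does not arise from a switching automorphism; in fact every switching automorphism of it fixes
every vertex of `S`. -/
theorem result : ∃ (X : OrientedGraph (Fin 9)) (S : Finset (Fin 9)),
    3 ≤ S.card ∧ X.MultipleStateTransfer S ∧ ¬ X.ArisesFromSwitching S ∧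
    ∀ (σ : Equiv.Perm (Fin 9)) (d : Fin 9 → ℝ), X.IsSwitchingAut σ d → ∀ a ∈ S, σ a = a :=
  main

end Pool.Agent.Results.MP_620d87_co.NineVertexExample
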